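import Mathlib
import Pool.Agent.H66.Glue

set_option autoImplicit false

namespace Pool.Agent.Results.MP_325c15_al.AllQuotients

/-- `σ` generates the kernel congruence of `a ↦ ∑ a_i n_i` on `ℕ^e`. -/
def IsPres {e : ℕ} (n : Fin e → ℕ) (σ : Finset ((Fin e → ℕ) × (Fin e → ℕ))) : Prop :=
  ∀ a b, addConGen (fun a b => (a, b) ∈ σ) a b ↔ ∑ i, a i * n i = ∑ i, b i * n i

/-- `S` is a complete intersection: with `n` listing its minimal generators, the least size of a
presentation is `e - 1`. -/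
def IsCI (S : AddSubmonoid ℕ) : Prop :=
  ∃ (e : ℕ) (n : Fin e → ℕ), AddSubmonoid.closure (Set.range n) = S ∧
    (∀ i, n i ∉ AddSubmonoid.closure (n '' {j | j ≠ i})) ∧
    IsLeast {k | ∃ σ, IsPres n σ ∧ σ.card = k} (e - 1)

/-- Every numerical semigroup is a quotient of a complete intersection numerical semigroup. -/
theorem result (T : AddSubmonoid ℕ) (hT : (T : Set ℕ)ᶜ.Finite) :
    ∃ (S : AddSubmonoid ℕ) (d : ℕ), (S : Set ℕ)ᶜ.Finite ∧ IsCI S ∧ 1 ≤ d ∧
      ∀ x, x ∈ T ↔ d * x ∈ S := by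
  obtain ⟨S, d, ⟨⟨N, hN⟩, e, n, σ, hcl, hinj, hne, hirr, hcard, hσ⟩, hd, h⟩ :=
    Pool.Agent.H66.Glue.main T hT
  have hl : ∀ τ, IsPres n τ → e ≤ τ.card := fun τ hτ =>
    Pool.Agent.H66.Glue.lower n (hne 0) τ fun a b h => (hτ a b).2 h
  refine ⟨S, d, (Set.finite_lt_nat N).subset fun x hx => not_le.1 fun h => hx (hN x h),
    ⟨e + 1, n, hcl, fun i hi => ?_, ⟨σ, hσ, le_antisymm hcard (hl σ hσ)⟩, ?_⟩, hd, h⟩
  · have hsub : AddSubmonoid.closure (n '' {j | j ≠ i}) ≤ S :=
      hcl ▸ AddSubmonoid.closure_mono (Set.image_subset_range _ _)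
    have : ∀ s ∈ AddSubmonoid.closure (n '' {j | j ≠ i}), s ≠ n i := by
      intro s hs
      induction hs using AddSubmonoid.closure_induction with
      | mem x hx =>
        obtain ⟨j, hj, rfl⟩ := hx
        exact fun h => hj (hinj h)
      | zero => exact (hne i).symm
      | add x y hx hy h1 h2 =>
        intro e
        rcases hirr i x (hsub hx) y (hsub hy) e with rfl | rfl
        · exact h2 (by simpa using e)
        · exact h1 (by simpa using e)
    exact this _ hi rfl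
  · rintro _ ⟨τ, hτ, rfl⟩
    exact hl τ hτ

end Pool.Agent.Results.MP_325c15_al.AllQuotients
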